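import Pool.Agent.Helper53.CTG.Goals

/-!
# PROJECT CTG, packet FB: bounds for the registers
-/

set_option autoImplicit false

namespace Pool.Agent.Helper16.CTG

open Pool.Agent.Helper1.TE (Gad app cif ctab bitc seed wN vN addm NumMach codeB word)
open Pool.Agent.Helper65.LinSpace (dig tab nrec ifz eq01 le01 lt01 capPow Ctx LS)
open Pool.Agent.Helper53.CTG

theorem enc_nat_le {a B : ℕ} (h : a ≤ B) (i : ℕ) : Ctx.enc a i ≤ B := by
  rcases i with _ | i
  · exact h
  · exact Nat.zero_le _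

theorem enc_prod_le {α β : Type} [Ctx α] [Ctx β] {B : ℕ} {p : α × β}
    (h1 : ∀ i, Ctx.enc p.1 i ≤ B) (h2 : ∀ i, Ctx.enc p.2 i ≤ B) (i : ℕ) :
    Ctx.enc p i ≤ B := by
  show (if i < Ctx.ar α then Ctx.enc p.1 i else Ctx.enc p.2 (i - Ctx.ar α)) ≤ B
  split_ifs
  · exact h1 _
  · exact h2 _

theorem enc_sta_le {B mo N q b c u W τ g t k m e f v j T X S A : ℕ} (h1 : mo ≤ B) (h2 : N ≤ B)
    (h3 : q ≤ B) (h4 : b ≤ B) (h5 : c ≤ B) (h6 : u ≤ B) (h7 : W ≤ B) (h8 : τ ≤ B) (h9 : g ≤ B)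
    (h10 : t ≤ B) (h11 : k ≤ B) (h11' : m ≤ B) (h12 : e ≤ B) (h13 : f ≤ B) (h14 : v ≤ B)
    (h15 : j ≤ B) (h16 : T ≤ B) (h17 : X ≤ B) (h18 : S ≤ B) (h19 : A ≤ B) (i : ℕ) :
    Ctx.enc (((mo, N, q, b, c, u, W), (τ, g, t), (k, m, e, f, v, j, T), (X, S, A)) : Sta) i ≤
      B := by
  refine enc_prod_le (enc_prod_le (enc_nat_le h1) (enc_prod_le (enc_nat_le h2)
    (enc_prod_le (enc_nat_le h3) (enc_prod_le (enc_nat_le h4) (enc_prod_le (enc_nat_le h5)
      (enc_prod_le (enc_nat_le h6) (enc_nat_le h7))))))) (enc_prod_le (enc_prod_le (enc_nat_le h8)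
        (enc_prod_le (enc_nat_le h9) (enc_nat_le h10))) (enc_prod_le (enc_prod_le (enc_nat_le h11)
          (enc_prod_le (enc_nat_le h11') (enc_prod_le (enc_nat_le h12)
            (enc_prod_le (enc_nat_le h13) (enc_prod_le (enc_nat_le h14)
              (enc_prod_le (enc_nat_le h15) (enc_nat_le h16))))))) (enc_prod_le (enc_nat_le h17)
                (enc_prod_le (enc_nat_le h18) (enc_nat_le h19))))) i

theorem enc_hdr_le {B mo N q b c u W : ℕ} (h1 : mo ≤ B) (h2 : N ≤ B)
    (h3 : q ≤ B) (h4 : b ≤ B) (h5 : c ≤ B) (h6 : u ≤ B) (h7 : W ≤ B) (i : ℕ) :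
    Ctx.enc (hdr mo N q b c u W) i ≤ B := by
  have h0 : (0 : ℕ) ≤ B := Nat.zero_le _
  exact enc_sta_le h1 h2 h3 h4 h5 h6 h7 h0 h0 h0 h0 h0 h0 h0 h0 h0 h0 h0 h0 h0 i

theorem word_lt (w : List Bool) (i : ℕ) (b : ℕ) : word w i b < 2 ^ b := by
  induction b with
  | zero => simp [word]
  | succ b ih =>
    rw [word, pow_succ]
    have h1 : (w.getD (i + b) false).toNat ≤ 1 := Bool.toNat_le _
    omega

theorem lt_len {w : List Bool} {i : ℕ} {x : Bool} (h : w[i]? = some x) : i < w.length := by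
  obtain ⟨h1, -⟩ := List.getElem?_eq_some_iff.1 h
  exact h1

theorem ones_le {w : List Bool} {s n : ℕ} (h : Ones w s n) : n ≤ w.length := by
  rcases Nat.eq_zero_or_pos n with rfl | hp
  · exact Nat.zero_le _
  · have := lt_len (h (n - 1) (by omega))
    omega

theorem pow_le {w : List Bool} {u : ℕ} (h : ∀ t < u, 2 ^ t < w.length) :
    2 ^ u ≤ 2 * w.length + 1 ∧ u ≤ w.length := by
  rcases u with _ | u
  · simp
  · have h1 := h u (Nat.lt_succ_self u)
    have h2 : u < 2 ^ u := Nat.lt_two_pow_self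
    rw [pow_succ]
    omega

theorem p1_le {w : List Bool} {N q : ℕ} (hp : P1 w N q) : N ≤ w.length ∧ q ≤ w.length := by
  obtain ⟨h1, -, h2⟩ := hp
  exact ⟨ones_le h1, ones_le h2⟩

theorem p2_le {w : List Bool} {N q b : ℕ} (hp : P2 w N q b) :
    N ≤ w.length ∧ q ≤ w.length ∧ b ≤ w.length := by
  obtain ⟨h1, -, h2⟩ := hp
  exact ⟨(p1_le h1).1, (p1_le h1).2, ones_le h2⟩

theorem p3_le {w : List Bool} {N q b c : ℕ} (hp : P3 w N q b c) :
    N ≤ w.length ∧ q ≤ w.length ∧ b ≤ w.length ∧ c ≤ w.length := by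
  obtain ⟨h1, -, h2⟩ := hp
  exact ⟨(p2_le h1).1, (p2_le h1).2.1, (p2_le h1).2.2, ones_le h2⟩

/-- **FB.** -/
theorem gFB : GoalFB := by
  intro hPB hWFD hOK hDI ok tst mal w x hI
  cases hI with
  | rej =>
    right
    exact enc_hdr_le (by omega) (by omega) (by omega) (by omega) (by omega) (by omega) (by omega)
  | m0 N h1 =>
    right
    have := ones_le h1
    exact enc_hdr_le (by omega) (by omega) (by omega) (by omega) (by omega) (by omega) (by omega)
  | m1 N q h1 =>
    right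
    have := p1_le h1
    exact enc_hdr_le (by omega) (by omega) (by omega) (by omega) (by omega) (by omega) (by omega)
  | m2 N q b h1 =>
    right
    have := p2_le h1
    exact enc_hdr_le (by omega) (by omega) (by omega) (by omega) (by omega) (by omega) (by omega)
  | m3 N q b c h1 =>
    right
    have := p3_le h1
    exact enc_hdr_le (by omega) (by omega) (by omega) (by omega) (by omega) (by omega) (by omega)
  | m4 N q b c u h1 hu h2 =>
    right
    have := p3_le h1.1
    have := pow_le h2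
    exact enc_hdr_le (by omega) (by omega) (by omega) (by omega) (by omega) (by omega) (by omega)
  | m5 N q b c u h1 hu =>
    left
    refine ⟨N, q, b, c, h1, fun i => ?_⟩
    obtain ⟨⟨-, -, hq, hN, hb, hc, -⟩, -⟩ := h1
    obtain ⟨-, -, -, -, -, -, -, -, -, -, -, -, -, -, -, -, h17, h18, h19, h20, h21, h22⟩ :=
      hPB N q b c hq hN hb hc
    have e1 : 2 ^ u ≤ 2 ^ Et N q b c := Nat.pow_le_pow_right (by norm_num) hu
    have e2 : Et N q b c < 2 ^ Et N q b c := Nat.lt_two_pow_self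
    have e3 : 2 ^ (Et N q b c + 1) = 2 ^ Et N q b c + 2 ^ Et N q b c := by
      rw [pow_succ]
      omega
    have e4 : Ctx.enc (hdr 5 N q b c u (2 ^ u)) i ≤ 2 ^ (Et N q b c + 1) - 1 :=
      enc_hdr_le (by omega) (by omega) (by omega) (by omega) (by omega) (by omega) (by omega) i
    omega
  | m6 N q b c u τ g t D X S A h1 hτ hu hg hD ht hX hS hC =>
    left
    refine ⟨N, q, b, c, h1, fun i => ?_⟩
    obtain ⟨⟨-, -, hq, hN, hb, hc, -⟩, -⟩ := h1
    obtain ⟨p1, p2, p3, p4, p5, p6, p7, p8, p9, p10, p11, p12, p13, p14, p15, p16, p17, p18, p19,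
      p20, p21, p22⟩ := hPB N q b c hq hN hb hc
    have e2 : Et N q b c < 2 ^ Et N q b c := Nat.lt_two_pow_self
    have e3 : 2 ^ (Et N q b c + 1) = 2 ^ Et N q b c + 2 ^ Et N q b c := by
      rw [pow_succ]
      omega
    -- the stack of arguments
    have hA : A < 2 ^ (c * (Hb N q + 2)) := by
      obtain ⟨γ, hγ, hr⟩ := hC
      have hK : (gadC b (2 ^ Et N q b c)).K ^ 3 = 8 ^ b := by
        show (2 ^ b) ^ 3 = 8 ^ b
        rw [← pow_mul, mul_comm, pow_mul]
        norm_num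
      have htab : TabOK (gadC b (2 ^ Et N q b c)) (tabV b (dat w N q b c)) c :=
        ⟨fun m v x y z => word_lt _ _ _, Nat.pow_le_pow_right (by norm_num) hc⟩
      refine (hDI (gadC b (2 ^ Et N q b c)) (hOK b _ hb p8) tst
        (tabV b (dat w N q b c)) N q c τ A γ (fun _ => (0, 0)) (toF N q b X S)
        htab hq hN (fun τ' => by rw [hK]; exact hγ τ') (fun j => ⟨?_, rfl⟩) hτ hr).2.2
      show (0 : ℕ) < (36 * b + Rb b) ^ (4 * b + 2)
      have : 0 < 36 * b + Rb b := by omega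
      positivity
    have e5 : g < 2 ^ Et N q b c := by
      refine lt_of_lt_of_le hg (le_trans (Nat.pow_le_pow_right (by norm_num)
        (min_le_right _ _)) p8)
    have e6 : t < 2 ^ Et N q b c := by
      rw [ht]
      refine lt_of_lt_of_le (word_lt _ _ _) (le_trans (Nat.pow_le_pow_right (by norm_num) ?_) p11)
      omega
    have hW : WF q (2 ^ (min u (Nt N q)) * 2) D := by
      rw [hD]
      exact hWFD.2.1 q 2 (root N q) (Nt N q) τ _ hq (hWFD.2.2 N q hq) (min_le_right _ _)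
    have e9 : 2 ^ (min u (Nt N q)) * 2 ≤ 2 ^ (Nt N q + 1) := by
      rw [pow_succ]
      exact Nat.mul_le_mul_right _ (Nat.pow_le_pow_right (by norm_num) (min_le_right _ _))
    have w1 := hW.hk
    have w1a := hW.hm
    have w2 := hW.he
    have w3 := hW.hf
    have w4 := hW.hv
    have w5 := hW.hT
    have w6 : D.i ≤ 3 * q + 4 := by
      rcases hW.hi with h | h | h <;> omega
    obtain ⟨k, m, e, f, v, j, T⟩ := D
    have w1' : k ≤ 5 := w1
    have w1a' : m ≤ 2 := w1a
    have w2' : e ≤ 3 * q + 3 := w2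
    have w3' : f + 1 ≤ 3 * q + 3 := w3
    have w4' : v < 2 ^ (min u (Nt N q)) * 2 := w4
    have w5' : T ≤ 2 := w5
    have w6' : j ≤ 3 * q + 4 := w6
    have e4 : Ctx.enc (mainS N q b c u (2 ^ Et N q b c) τ g t (k, m, e, f, v, j, T) X S A) i ≤
        2 ^ (Et N q b c + 1) - 1 :=
      enc_sta_le (by omega) (by omega) (by omega) (by omega) (by omega) (by omega) (by omega)
        (by omega) (by omega) (by omega) (by omega) (by omega) (by omega) (by omega) (by omega)
        (by omega) (by omega) (by omega) (by omega) (by omega) i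
    omega
  | m7 h1 =>
    right
    exact enc_hdr_le (by omega) (by omega) (by omega) (by omega) (by omega) (by omega) (by omega)

end Pool.Agent.Helper16.CTG
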